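import Pool.Agent.Helper38.Fom.Defs

/-!
Evaluation lemmas for tuples of polynomials.
-/

namespace Pool.Agent.Helper38.Fom

open MvPolynomial

variable {K : Type} [Field K] {n : ℕ}

/-- evaluation of a tuple of polynomials -/
noncomputable def evt (F : Tuple K n) (x : Fin n → K) : Fin n → K := fun i => eval x (F i)

theorem evt_ext [Infinite K] {F G : Tuple K n} (h : ∀ x, evt F x = evt G x) : F = G := by
  funext i
  apply MvPolynomial.funext
  intro x
  exact congrFun (h x) i

theorem evt_subst (F : Tuple K n) (M : Matrix (Fin n) (Fin n) K) (x : Fin n → K) :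
    evt (subst F M) x = evt F (M.mulVec x) := by
  funext i
  simp only [evt, subst]
  rw [← MvPolynomial.coe_aeval_eq_eval, ← MvPolynomial.coe_aeval_eq_eval]
  simp only [RingHom.coe_coe]
  rw [MvPolynomial.aeval_bind₁]
  congr 2
  funext j
  simp [Matrix.mulVec, dotProduct]

theorem evt_conj (F : Tuple K n) (M : Matrix.GeneralLinearGroup (Fin n) K) (x : Fin n → K) :
    evt (conj F M) x = (M⁻¹).1.mulVec (evt F (M.1.mulVec x)) := by
  rw [← evt_subst]
  funext i
  simp [evt, conj, Matrix.mulVec, dotProduct]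

theorem evt_C_mul (F : Tuple K n) (c : K) (x : Fin n → K) :
    evt (fun i => C c * F i) x = c • evt F x := by
  funext i
  simp [evt]

theorem evt_gal [Algebra ℚ K] (σ : K ≃ₐ[ℚ] K) (F : Tuple K n) (x : Fin n → K) :
    evt (gal σ F) (fun i => σ (x i)) = fun i => σ (evt F x i) := by
  funext i
  simp only [evt, gal]
  rw [eval_map]
  have h := MvPolynomial.eval₂_comp_left (σ : K →+* K) (RingHom.id K) x (F i)
  rw [MvPolynomial.eval₂_id] at h
  exact h.symm

theorem evt_smul {d : ℕ} {F : Tuple K n} (hF : ∀ i, (F i).IsHomogeneous d) (a : K)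
    (x : Fin n → K) : evt F (a • x) = a ^ d • evt F x := by
  funext i
  simp only [evt, Pi.smul_apply, smul_eq_mul]
  rw [eval_eq', eval_eq', Finset.mul_sum]
  refine Finset.sum_congr rfl fun m hm => ?_
  have hd : ∑ j, m j = d := by
    have := (hF i) (mem_support_iff.mp hm)
    rw [← this, Finsupp.weight_apply, Finsupp.sum_fintype _ _ (by simp)]
    simp
  simp only [Pi.smul_apply, smul_eq_mul, mul_pow, Finset.prod_mul_distrib,
    Finset.prod_pow_eq_pow_sum, hd]
  ring

theorem gal_eq_self [Algebra ℚ K] (σ : K ≃ₐ[ℚ] K) (F : Tuple K n)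
    (h : ∀ i m, σ (coeff m (F i)) = coeff m (F i)) : gal σ F = F := by
  funext i
  ext m
  simp only [gal, coeff_map]
  exact h i m

end Pool.Agent.Helper38.Fom
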