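import Mathlib

/-!
Endomorphisms of projective space, fields of moduli and fields of definition.
A morphism of `P^(n-1)` is given by an `n`-tuple of homogeneous polynomials in `n` variables.
-/

namespace Pool.Agent.Helper38.Fom

open MvPolynomial

/-- An `n`-tuple of polynomials in `n` variables over `K`. -/
abbrev Tuple (K : Type) [Field K] (n : ℕ) : Type := Fin n → MvPolynomial (Fin n) K

/-- `F` is a tuple of homogeneous coordinates of a morphism of degree `d` of `P^(n-1)`:
all components are homogeneous of degree `d` and have no common zero except the origin. -/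
structure IsMorphism {K : Type} [Field K] {n : ℕ} (d : ℕ) (F : Tuple K n) : Prop where
  homogeneous : ∀ i, (F i).IsHomogeneous d
  no_common_zero : ∀ x : Fin n → K, (∀ i, eval x (F i) = 0) → x = 0

/-- The composition `F ∘ M` with the linear map `x ↦ M x`. -/
noncomputable def subst {K : Type} [Field K] {n : ℕ} (F : Tuple K n)
    (M : Matrix (Fin n) (Fin n) K) : Tuple K n :=
  fun i => bind₁ (fun j => ∑ l, C (M j l) * X l) (F i)

/-- The conjugate `M⁻¹ ∘ F ∘ M`. -/
noncomputable def conj {K : Type} [Field K] {n : ℕ} (F : Tuple K n)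
    (M : Matrix.GeneralLinearGroup (Fin n) K) : Tuple K n :=
  fun i => ∑ j, C ((M⁻¹).1 i j) * subst F M.1 j

/-- The action of a field automorphism on the coefficients. -/
noncomputable def gal {K : Type} [Field K] [Algebra ℚ K] {n : ℕ} (σ : K ≃ₐ[ℚ] K)
    (F : Tuple K n) : Tuple K n :=
  fun i => map (σ : K →+* K) (F i)

/-- The morphisms given by `F` and `G` are conjugate by an element of `PGL_n(K)`: up to a nonzero
scalar, `G` is the conjugate of `F` by an invertible matrix. -/
def Conjugate {K : Type} [Field K] {n : ℕ} (F G : Tuple K n) : Prop :=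
  ∃ (M : Matrix.GeneralLinearGroup (Fin n) K) (c : K), c ≠ 0 ∧ ∀ i, G i = C c * conj F M i

/-- The field of moduli of `F`: the fixed field of the set of all `σ` in `Gal(K/ℚ)` such that
`F^σ` is conjugate to `F`. -/
def fieldOfModuli {K : Type} [Field K] [Algebra ℚ K] {n : ℕ} (F : Tuple K n) : Subfield K where
  carrier := {x | ∀ σ : K ≃ₐ[ℚ] K, Conjugate F (gal σ F) → σ x = x}
  mul_mem' := fun ha hb σ h => by rw [map_mul, ha σ h, hb σ h]
  one_mem' := fun σ _ => map_one σ
  add_mem' := fun ha hb σ h => by rw [map_add, ha σ h, hb σ h]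
  zero_mem' := fun σ _ => map_zero σ
  neg_mem' := fun ha σ h => by rw [map_neg, ha σ h]
  inv_mem' := fun _ ha σ h => by rw [map_inv₀, ha σ h]

/-- The subfield `L` of `K` is a field of definition of `F`: some conjugate of the morphism has
homogeneous coordinates with all coefficients in `L`. -/
def IsFieldOfDefinition {K : Type} [Field K] {n : ℕ} (F : Tuple K n) (L : Subfield K) : Prop :=
  ∃ G : Tuple K n, Conjugate F G ∧ ∀ i m, coeff m (G i) ∈ L

/-- `FOM/FOD(N, d)`: the supremum over all degree `d` morphisms of `P^N` over the algebraic closure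
of `ℚ` of the infimum of the degrees `[L : K_F]` over all fields of definition `L`. -/
noncomputable def fomFod (N d : ℕ) : ℕ∞ :=
  ⨆ (F : Tuple (AlgebraicClosure ℚ) (N + 1)) (_ : IsMorphism d F),
    ⨅ (L : Subfield (AlgebraicClosure ℚ)) (_ : IsFieldOfDefinition F L),
      Cardinal.toENat (Subfield.relrank (fieldOfModuli F) L)

end Pool.Agent.Helper38.Fom
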