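import Pool.Agent.Helper38.Fom.Torus

/-!
From a semilinear diagonal action to coefficients in a fixed field.
-/

namespace Pool.Agent.Helper38.Fom

open MvPolynomial Pool.Agent.Helper881.FM Module

variable {K : Type} [Field K] [Algebra ℚ K] {n : ℕ}

/-- the matrix whose columns are the vectors of a basis -/
noncomputable def basisGL (w : Basis (Fin n) K (Fin n → K)) : Matrix.GeneralLinearGroup (Fin n) K where
  val := (Pi.basisFun K (Fin n)).toMatrix w
  inv := w.toMatrix (Pi.basisFun K (Fin n))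
  val_inv := Basis.toMatrix_mul_toMatrix_flip _ _
  inv_val := Basis.toMatrix_mul_toMatrix_flip _ _

theorem basisGL_mulVec (w : Basis (Fin n) K (Fin n → K)) (x : Fin n → K) :
    (basisGL w).1.mulVec x = ∑ j, x j • w j := by
  funext i
  rw [Finset.sum_apply]
  simp only [Matrix.mulVec, dotProduct, basisGL, Basis.toMatrix_apply, Pi.basisFun_repr,
    Pi.smul_apply, smul_eq_mul]
  exact Finset.sum_congr rfl fun j _ => mul_comm _ _

theorem diag_coeff (F : Tuple K n) (g : EG F) (w : Basis (Fin n) K (Fin n → K)) (c : Fin n → K)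
    (hc : ∀ i, (rho F).act g (w i) = c i • w i) (i : Fin n) (m : Fin n →₀ ℕ) :
    coeff m (conj F (basisGL w) i) * ∏ j, c j ^ m j =
      c i * pr F g (coeff m (conj F (basisGL w) i)) := by
  have hinf : Infinite K := by
    have : CharZero K := algebraRat.charZero K
    infer_instance
  obtain ⟨F', hF'⟩ : ∃ F' : Tuple K n, F' = conj F (basisGL w) := ⟨_, rfl⟩
  rw [← hF']
  have hH : ∀ x : Fin n → K, (basisGL w).1.mulVec (fun i => c i * pr F g (x i)) =
      (rho F).act g ((basisGL w).1.mulVec x) := by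
    intro x
    rw [basisGL_mulVec, basisGL_mulVec, (rho F).sum]
    refine Finset.sum_congr rfl fun j _ => ?_
    rw [(rho F).smul, hc, smul_smul, mul_comm]
  have hI : ∀ y : Fin n → K, ((basisGL w)⁻¹).1.mulVec ((basisGL w).1.mulVec y) = y := by
    intro y
    rw [Matrix.mulVec_mulVec]
    have : ((basisGL w)⁻¹).1 * (basisGL w).1 = 1 := (basisGL w).inv_val
    rw [this, Matrix.one_mulVec]
  have hI' : ∀ y : Fin n → K, (basisGL w).1.mulVec (((basisGL w)⁻¹).1.mulVec y) = y := by
    intro y
    rw [Matrix.mulVec_mulVec]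
    have : (basisGL w).1 * ((basisGL w)⁻¹).1 = 1 := (basisGL w).val_inv
    rw [this, Matrix.one_mulVec]
  have hev : ∀ x : Fin n → K, evt F' (fun i => c i * pr F g (x i)) =
      fun i => c i * pr F g (evt F' x i) := by
    intro x
    have h1 : evt F ((basisGL w).1.mulVec x) = (basisGL w).1.mulVec (evt F' x) := by
      rw [hF', evt_conj, hI']
    have h2 : evt F' (fun i => c i * pr F g (x i)) =
        ((basisGL w)⁻¹).1.mulVec (evt F ((basisGL w).1.mulVec (fun i => c i * pr F g (x i)))) := by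
      rw [hF', evt_conj]
    rw [h2, hH, rho_comm, h1, ← hH, hI]
  have hpoly : bind₁ (fun j => C (c j) * X j) (F' i) = C (c i) * gal (pr F g) F' i := by
    apply MvPolynomial.funext
    intro y
    obtain ⟨x, rfl⟩ : ∃ x : Fin n → K, y = fun i => pr F g (x i) :=
      ⟨fun i => (pr F g).symm (y i), by funext i; simp⟩
    have h1 := congrFun (hev x) i
    have h2 := congrFun (evt_gal (pr F g) F' x) i
    simp only [evt] at h1 h2
    rw [map_mul, eval_C, h2, ← h1]
    rw [← MvPolynomial.coe_aeval_eq_eval, ← MvPolynomial.coe_aeval_eq_eval]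
    simp only [RingHom.coe_coe]
    rw [MvPolynomial.aeval_bind₁]
    congr 2
    funext j
    simp
  have := congrArg (coeff m) hpoly
  rw [coeff_scale, coeff_C_mul] at this
  rw [this]
  simp only [gal, coeff_map]
  rfl

theorem diag_normal [IsAlgClosed K] (F : Tuple K n) (G : Subgroup (EG F))
    (w : Basis (Fin n) K (Fin n → K))
    (hw : ∀ g ∈ G, ∀ i, ∃ c : K, (rho F).act g (w i) = c • w i) :
    ∃ M : Matrix.GeneralLinearGroup (Fin n) K, ∀ g ∈ G, ∀ i m,
      pr F g (coeff m (conj F M i)) = coeff m (conj F M i) := by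
  classical
  have hinf : Infinite K := by
    have : CharZero K := algebraRat.charZero K
    infer_instance
  obtain ⟨F', hF'⟩ : ∃ F' : Tuple K n, F' = conj F (basisGL w) := ⟨_, rfl⟩
  obtain ⟨T, hT⟩ := exists_torus {s : Fin n × (Fin n →₀ ℕ) // coeff s.2 (F' s.1) ≠ 0}
    (fun s => Units.mk0 _ s.2) (fun s => expo s.1.1 s.1.2)
  refine ⟨basisGL w * diagGL T, fun g hg i m => ?_⟩
  rw [← conj_mul, ← hF', coeff_conj_diag]
  by_cases h0 : coeff m (F' i) = 0
  · rw [h0, zero_mul, map_zero]
  choose c hc using hw g hg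
  have hc0 : ∀ i, c i ≠ 0 := by
    intro i hi
    have h1 := hc i
    rw [hi, zero_smul, ← (rho F).zero g] at h1
    exact w.ne_zero i ((rho F).injective g h1)
  have h2 := hT (pr F g).toRingEquiv (fun i => Units.mk0 (c i) (hc0 i)) (by
    rintro ⟨⟨i', m'⟩, hs⟩
    apply Units.ext
    rw [chi_expo]
    have h3 := diag_coeff F g w c hc i' m'
    rw [← hF'] at h3
    simp only [Units.coe_map, MonoidHom.coe_coe, Units.val_mk0, Units.val_mul, Units.coe_prod,
      Units.val_pow_eq_pow_val, Units.val_inv_eq_inv_val]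
    rw [← mul_assoc, eq_mul_inv_iff_mul_eq₀ (hc0 i'), h3, mul_comm]
    rfl) ⟨⟨i, m⟩, h0⟩
  exact h2

end Pool.Agent.Helper38.Fom
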