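import Pool.Agent.Helper38.Fom.Diag

/-!
Fields of moduli and fields of definition; Artin's bound.
-/

namespace Pool.Agent.Helper38.Fom

open MvPolynomial Pool.Agent.Helper881.FM Module

theorem artin_bound {K : Type} [Field K] {E : Type} [Group E] (act : E →* (K ≃+* K))
    (G : Subgroup E) (hG : G.index ≠ 0) (A B : Subfield K)
    (hA : ∀ x, (∀ e, act e x = x) → x ∈ A) (hB : ∀ x ∈ B, ∀ g ∈ G, act g x = x)
    (hAB : A ≤ B) : Subfield.relrank A B ≤ (G.index : Cardinal) := by
  classical
  rw [Subfield.relrank_eq_rank_of_le hAB]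
  let _ : MulSemiringAction E K := MulSemiringAction.compHom K act
  have hsm : ∀ (e : E) (x : K), e • x = act e x := fun e x => rfl
  have hfi : G.FiniteIndex := ⟨hG⟩
  have hfin : Finite (E ⧸ G) := Subgroup.finite_quotient_of_finiteIndex
  have hft : Fintype (E ⧸ G) := Fintype.ofFinite _
  refine rank_le fun s hs => ?_
  -- transfer to `K`
  let s' : Finset K := s.image (fun x : Subfield.extendScalars hAB => (x : K))
  have hcard : s'.card = s.card := Finset.card_image_of_injective _ Subtype.val_injective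
  have hs' : LinearIndepOn (FixedPoints.subfield E K) id (s' : Set K) := by
    rw [linearIndepOn_finset_iff]
    intro f hf x hx
    obtain ⟨x', hx', rfl⟩ := Finset.mem_image.mp hx
    have hfA : ∀ y, ((f y : FixedPoints.subfield E K) : K) ∈ A := fun y => hA _ fun e => (f y).2 e
    have hs2 : LinearIndepOn A id (s : Set (Subfield.extendScalars hAB)) := hs
    rw [linearIndepOn_finset_iff] at hs2
    have := hs2 (fun y => ⟨(f (y : K) : K), hfA _⟩) (by
      apply Subtype.ext
      have h2 : ((∑ y ∈ s, (⟨(f (y : K) : K), hfA _⟩ : A) • (id y : Subfield.extendScalars hAB) :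
          Subfield.extendScalars hAB) : K) = ∑ y ∈ s, (f (y : K) : K) * (y : K) := by
        rw [AddSubmonoidClass.coe_finsetSum]
        rfl
      rw [h2]
      have h3 : ∑ i ∈ s', f i • id i = ∑ y ∈ s, (f (y : K) : K) * (y : K) := by
        rw [Finset.sum_image (fun a _ b _ h => Subtype.val_injective h)]
        rfl
      rw [← h3, hf]
      rfl) x' hx'
    apply Subtype.ext
    exact congrArg (fun a : A => (a : K)) this
  have hli := FixedPoints.linearIndependent_smul_of_linearIndependent E K hs'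
  have hmemB : ∀ x ∈ s', x ∈ B := by
    intro x hx
    obtain ⟨x', _, rfl⟩ := Finset.mem_image.mp hx
    exact x'.2
  let Φ : ((E ⧸ G) → K) →ₗ[K] (E → K) := LinearMap.funLeft K K (fun e => (e : E ⧸ G))
  let y : {x // x ∈ (s' : Set K)} → ((E ⧸ G) → K) := fun x => Quotient.lift (fun e => act e (x : K)) (by
    intro a b hab
    have h1 : a⁻¹ * b ∈ G := QuotientGroup.leftRel_apply.mp hab
    have h2 := hB (x : K) (hmemB _ x.2) _ h1
    have h3 : act b (x : K) = act a (act (a⁻¹ * b) (x : K)) := by
      have h4 : act b = act a * act (a⁻¹ * b) := by rw [← map_mul, mul_inv_cancel_left]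
      rw [h4]
      rfl
    show act a (x : K) = act b (x : K)
    rw [h3, h2])
  have hy : LinearIndependent K y := by
    apply LinearIndependent.of_comp Φ
    exact hli
  have := hy.fintype_card_le_finrank
  rw [Module.finrank_fintype_fun_eq_card] at this
  have h5 : Fintype.card {x // x ∈ (s' : Set K)} = s'.card := by simp
  rw [h5, hcard] at this
  rw [Subgroup.index, Nat.card_eq_fintype_card]
  exact this

section NoAlg

variable {K : Type} [Field K] {n : ℕ}

theorem mulVec_inv_cancel (M : Matrix.GeneralLinearGroup (Fin n) K) (y : Fin n → K) :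
    (M⁻¹).1.mulVec (M.1.mulVec y) = y := by
  rw [Matrix.mulVec_mulVec]
  have : (M⁻¹).1 * M.1 = 1 := M.inv_val
  rw [this, Matrix.one_mulVec]

theorem mulVec_cancel_inv (M : Matrix.GeneralLinearGroup (Fin n) K) (y : Fin n → K) :
    M.1.mulVec ((M⁻¹).1.mulVec y) = y := by
  rw [Matrix.mulVec_mulVec]
  have : M.1 * (M⁻¹).1 = 1 := M.val_inv
  rw [this, Matrix.one_mulVec]

theorem evt_conjugate {F G : Tuple K n} {M : Matrix.GeneralLinearGroup (Fin n) K} {c : K}
    (h : ∀ i, G i = C c * conj F M i) (y : Fin n → K) :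
    evt G y = c • (M⁻¹).1.mulVec (evt F (M.1.mulVec y)) := by
  have : G = fun i => C c * conj F M i := funext h
  rw [this, evt_C_mul, evt_conj]

end NoAlg

variable {K : Type} [Field K] [Algebra ℚ K] {n : ℕ}

/-- every Galois element fixing the isomorphism class lifts -/
theorem exists_lift [IsAlgClosed K] {d : ℕ} (hd : 2 ≤ d) {F : Tuple K n} (hF : IsMorphism d F)
    (σ : K ≃ₐ[ℚ] K) (h : Conjugate F (gal σ F)) : ∃ e : EG F, pr F e = σ := by
  obtain ⟨M, c, hc, hM⟩ := h
  obtain ⟨l, hl⟩ := IsAlgClosed.exists_pow_nat_eq c (n := d - 1) (by omega)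
  have hl0 : l ≠ 0 := by
    rintro rfl
    rw [zero_pow (by omega)] at hl
    exact hc hl.symm
  let h : Equiv.Perm (Fin n → K) :=
    { toFun := fun v => l • M.1.mulVec (fun i => σ (v i))
      invFun := fun v i => σ.symm ((M⁻¹).1.mulVec (l⁻¹ • v) i)
      left_inv := fun v => by
        funext i
        show σ.symm ((M⁻¹).1.mulVec (l⁻¹ • l • M.1.mulVec (fun i => σ (v i))) i) = v i
        rw [inv_smul_smul₀ hl0, mulVec_inv_cancel]
        simp
      right_inv := fun v => by
        show l • M.1.mulVec (fun i => σ (σ.symm ((M⁻¹).1.mulVec (l⁻¹ • v) i))) = v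
        simp only [AlgEquiv.apply_symm_apply]
        rw [mulVec_cancel_inv, smul_inv_smul₀ hl0] }
  have hh : ∀ v, h v = l • M.1.mulVec (fun i => σ (v i)) := fun v => rfl
  refine ⟨⟨(σ, h), ⟨fun v w => ?_, fun a v => ?_, fun v => ?_⟩⟩, rfl⟩
  · show h (v + w) = h v + h w
    rw [hh, hh, hh, ← smul_add, ← Matrix.mulVec_add]
    congr 2
    funext i
    exact map_add σ (v i) (w i)
  · show h (a • v) = σ a • h v
    rw [hh, hh, smul_comm, ← Matrix.mulVec_smul M.1 (σ a)]
    congr 2
    funext i
    exact map_mul σ a (v i)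
  · show evt F (h v) = h (evt F v)
    have h1 := evt_conjugate hM (fun i => σ (v i))
    rw [evt_gal] at h1
    rw [hh, hh, evt_smul hF.homogeneous, h1, Matrix.mulVec_smul, mulVec_cancel_inv, smul_smul]
    congr 1
    rw [← hl, ← pow_succ']
    congr 1
    omega

theorem map_mulVec_gal (σ : K ≃ₐ[ℚ] K) (M : Matrix.GeneralLinearGroup (Fin n) K)
    (y : Fin n → K) : (fun i => σ (M.1.mulVec y i)) =
      (Matrix.GeneralLinearGroup.map (σ : K →+* K) M).1.mulVec (fun i => σ (y i)) := by
  funext i
  exact RingHom.map_mulVec (σ : K →+* K) M.1 y i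

/-- a Galois element fixing a field of definition fixes the isomorphism class -/
theorem conjugate_of_fix {F : Tuple K n} {L : Subfield K} (h : IsFieldOfDefinition F L)
    (σ : K ≃ₐ[ℚ] K) (hσ : ∀ x ∈ L, σ x = x) : Conjugate F (gal σ F) := by
  have hinf : Infinite K := by
    have : CharZero K := algebraRat.charZero K
    infer_instance
  obtain ⟨G, ⟨M, c, hc, hM⟩, hG⟩ := h
  have hGG : gal σ G = G := gal_eq_self σ G fun i m => hσ _ (hG i m)
  have hσc : σ c ≠ 0 := by
    intro h0
    exact hc (by simpa using h0)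
  obtain ⟨N, hN⟩ : ∃ N : Matrix.GeneralLinearGroup (Fin n) K,
    N = Matrix.GeneralLinearGroup.map (σ : K →+* K) M := ⟨_, rfl⟩
  have hNi : ∀ y : Fin n → K, (fun i => σ ((M⁻¹).1.mulVec y i)) =
      (N⁻¹).1.mulVec (fun i => σ (y i)) := by
    intro y
    rw [hN, ← map_inv]
    exact map_mulVec_gal σ M⁻¹ y
  have hNn : ∀ y : Fin n → K, (fun i => σ (M.1.mulVec y i)) =
      N.1.mulVec (fun i => σ (y i)) := by
    intro y
    rw [hN]
    exact map_mulVec_gal σ M y
  refine ⟨M * N⁻¹, c / σ c, div_ne_zero hc hσc, ?_⟩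
  have key : gal σ F = fun i => C (c / σ c) * conj F (M * N⁻¹) i := by
    apply evt_ext
    intro y
    obtain ⟨x, rfl⟩ : ∃ x : Fin n → K, y = fun i => σ (x i) :=
      ⟨fun i => σ.symm (y i), by funext i; simp⟩
    have h1 : ∀ z, evt F z = c⁻¹ • M.1.mulVec (evt G ((M⁻¹).1.mulVec z)) := by
      intro z
      rw [evt_conjugate hM, mulVec_cancel_inv, Matrix.mulVec_smul, mulVec_cancel_inv,
        inv_smul_smul₀ hc]
    have h2 : ∀ z, (fun i => σ (evt G z i)) = evt G (fun i => σ (z i)) := by
      intro z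
      rw [← evt_gal, hGG]
    rw [evt_gal, evt_C_mul, evt_conj, mul_inv_rev, inv_inv]
    have h3 : (fun i => σ (evt F x i)) = (σ c)⁻¹ •
        N.1.mulVec (evt G ((N⁻¹).1.mulVec (fun i => σ (x i)))) := by
      rw [h1]
      have h4 : (fun i => σ ((c⁻¹ • M.1.mulVec (evt G ((M⁻¹).1.mulVec x))) i)) =
          (σ c)⁻¹ • (fun i => σ ((M.1.mulVec (evt G ((M⁻¹).1.mulVec x))) i)) := by
        funext i
        simp
      rw [h4, hNn, h2, hNi]
    rw [h3, evt_conjugate hM]
    simp only [Units.val_mul, Matrix.mulVec_mulVec, Matrix.mulVec_smul, smul_smul]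
    rw [div_eq_inv_mul]
  exact fun i => congrFun key i

/-- every field of definition contains the field of moduli -/
theorem fieldOfModuli_le [IsGalois ℚ K] {F : Tuple K n} {L : Subfield K}
    (h : IsFieldOfDefinition F L) : fieldOfModuli F ≤ L := by
  intro x hx
  let L' : IntermediateField ℚ K := L.toIntermediateField (fun q => by
    rw [eq_ratCast]
    exact SubfieldClass.ratCast_mem L q)
  have h1 : x ∈ IntermediateField.fixedField L'.fixingSubgroup := by
    rw [IntermediateField.mem_fixedField_iff]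
    intro σ hσ
    apply hx
    apply conjugate_of_fix h
    intro y hy
    exact (IntermediateField.mem_fixingSubgroup_iff L' σ).mp hσ y hy
  rw [InfiniteGalois.fixedField_fixingSubgroup] at h1
  exact h1

end Pool.Agent.Helper38.Fom
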