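import Pool.Agent.Helper38.Fom.Basic
import Pool.Agent.Helper881.FmSpeiser

/-!
The group of semilinear symmetries of a tuple.
-/

namespace Pool.Agent.Helper38.Fom

open MvPolynomial Pool.Agent.Helper881.FM

variable {K : Type} [Field K] [Algebra ℚ K] {n : ℕ}

/-- pairs of a field automorphism and a semilinear bijection commuting with the tuple -/
structure EGP (F : Tuple K n) (p : (K ≃ₐ[ℚ] K) × Equiv.Perm (Fin n → K)) : Prop where
  add : ∀ v w : Fin n → K, p.2 (v + w) = p.2 v + p.2 w
  smul : ∀ (a : K) (v : Fin n → K), p.2 (a • v) = p.1 a • p.2 v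
  comm : ∀ v, evt F (p.2 v) = p.2 (evt F v)

/-- pairs of a field automorphism and a semilinear bijection commuting with the tuple -/
def EG (F : Tuple K n) : Subgroup ((K ≃ₐ[ℚ] K) × Equiv.Perm (Fin n → K)) where
  carrier := {p | EGP F p}
  mul_mem' := by
    rintro ⟨σ, g⟩ ⟨τ, h⟩ ⟨h0, h1, h2⟩ ⟨h0', h3, h4⟩
    refine ⟨fun v w => ?_, fun a v => ?_, fun v => ?_⟩
    · show g (h (v + w)) = g (h v) + g (h w)
      exact (congrArg g (h0' v w)).trans (h0 _ _)
    · show g (h (a • v)) = σ (τ a) • g (h v)
      exact (congrArg g (h3 a v)).trans (h1 _ _)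
    · show evt F (g (h v)) = g (h (evt F v))
      exact (h2 _).trans (congrArg g (h4 v))
  one_mem' := ⟨fun v w => rfl, fun a v => rfl, fun v => rfl⟩
  inv_mem' := by
    rintro ⟨σ, g⟩ ⟨h0, h1, h2⟩
    refine ⟨fun v w => ?_, fun a v => ?_, fun v => ?_⟩
    · show g.symm (v + w) = g.symm v + g.symm w
      apply g.injective
      rw [Equiv.apply_symm_apply]
      refine Eq.trans ?_ (h0 _ _).symm
      show v + w = g (g.symm v) + g (g.symm w)
      rw [Equiv.apply_symm_apply, Equiv.apply_symm_apply]
    · show g.symm (a • v) = σ.symm a • g.symm v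
      apply g.injective
      rw [Equiv.apply_symm_apply]
      refine Eq.trans ?_ (h1 _ _).symm
      show a • v = σ (σ.symm a) • g (g.symm v)
      rw [Equiv.apply_symm_apply, AlgEquiv.apply_symm_apply]
    · show evt F (g.symm v) = g.symm (evt F v)
      apply g.injective
      rw [Equiv.apply_symm_apply]
      refine (h2 _).symm.trans ?_
      show evt F (g (g.symm v)) = evt F v
      rw [Equiv.apply_symm_apply]

/-- the projection to the Galois group -/
def pr (F : Tuple K n) : EG F →* (K ≃ₐ[ℚ] K) := (MonoidHom.fst _ _).comp (EG F).subtype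

/-- the semilinear action -/
def rho (F : Tuple K n) : SR (pr F) (Fin n → K) where
  act e v := e.1.2 v
  one v := rfl
  mul e e' v := rfl
  add e v w := e.2.add v w
  smul e a v := e.2.smul a v

theorem rho_comm (F : Tuple K n) (e : EG F) (v : Fin n → K) :
    evt F ((rho F).act e v) = (rho F).act e (evt F v) := e.2.comm v

theorem rho_faithful (F : Tuple K n) (e : EG F) (h1 : pr F e = 1)
    (h2 : ∀ v, (rho F).act e v = v) : e = 1 := by
  apply Subtype.ext
  apply Prod.ext
  · exact h1
  · exact Equiv.ext h2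

/-- the standard element -/
def stdPair (σ : K ≃ₐ[ℚ] K) : (K ≃ₐ[ℚ] K) × Equiv.Perm (Fin n → K) :=
  (σ, { toFun := fun v i => σ (v i)
        invFun := fun v i => σ.symm (v i)
        left_inv := fun v => by funext i; simp
        right_inv := fun v => by funext i; simp })

theorem stdPair_mem (F : Tuple K n) (σ : K ≃ₐ[ℚ] K) (h : gal σ F = F) : stdPair σ ∈ EG F := by
  refine ⟨fun v w => ?_, fun a v => ?_, fun v => ?_⟩
  · funext i
    exact map_add σ (v i) (w i)
  · funext i
    exact map_mul σ a (v i)
  · have := evt_gal σ F v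
    rw [h] at this
    exact this

theorem rho_smooth [Algebra.IsAlgebraic ℚ K] (F : Tuple K n) : (rho F).Smooth := by
  classical
  intro S
  let A : Set K := {a | ∃ i, ∃ m ∈ (F i).support, a = coeff m (F i)} ∪
    {a | ∃ v ∈ S, ∃ i, a = v i}
  have hA : A.Finite := by
    apply Set.Finite.union
    · have : {a | ∃ i, ∃ m ∈ (F i).support, a = coeff m (F i)} =
        ⋃ i, (fun m => coeff m (F i)) '' ((F i).support : Set (Fin n →₀ ℕ)) := by
        ext a
        simp only [Set.mem_setOf_eq, Set.mem_iUnion, Set.mem_image, Finset.mem_coe]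
        constructor
        · rintro ⟨i, m, hm, rfl⟩
          exact ⟨i, m, hm, rfl⟩
        · rintro ⟨i, m, hm, rfl⟩
          exact ⟨i, m, hm, rfl⟩
      rw [this]
      exact Set.finite_iUnion fun i => (Finset.finite_toSet _).image _
    · have : {a | ∃ v ∈ S, ∃ i, a = v i} = ⋃ v ∈ S, Set.range v := by
        ext a
        simp only [Set.mem_setOf_eq, Set.mem_iUnion, Set.mem_range, exists_prop]
        constructor
        · rintro ⟨v, hv, i, rfl⟩
          exact ⟨v, hv, i, rfl⟩
        · rintro ⟨v, hv, i, rfl⟩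
          exact ⟨v, hv, i, rfl⟩
      rw [this]
      exact Set.Finite.biUnion (Finset.finite_toSet S) fun v _ => Set.finite_range v
  refine ⟨IntermediateField.adjoin ℚ A, ?_, fun σ hσ => ?_⟩
  · have := hA.to_subtype
    exact IntermediateField.finiteDimensional_adjoin
      fun x _ => Algebra.IsIntegral.isIntegral x
  · have hg : gal σ F = F := by
      apply gal_eq_self
      intro i m
      by_cases hm : coeff m (F i) = 0
      · rw [hm, map_zero]
      · exact hσ _ (IntermediateField.subset_adjoin ℚ A
          (Or.inl ⟨i, m, mem_support_iff.mpr hm, rfl⟩))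
    refine ⟨⟨stdPair σ, stdPair_mem F σ hg⟩, rfl, fun v hv => ?_⟩
    funext i
    exact hσ _ (IntermediateField.subset_adjoin ℚ A (Or.inr ⟨v, hv, i, rfl⟩))

end Pool.Agent.Helper38.Fom
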