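import Pool.Agent.Helper38.Fom.Grp
import Pool.Agent.Helper561.FomFinite

/-!
The kernel of the projection to the Galois group.
-/

namespace Pool.Agent.Helper38.Fom

open MvPolynomial Pool.Agent.Helper881.FM

variable {K : Type} [Field K] [Algebra ℚ K] {n : ℕ}

/-- the linear automorphism given by an element of the kernel -/
def kerLin (F : Tuple K n) (e : (pr F).ker) : (Fin n → K) ≃ₗ[K] (Fin n → K) where
  toFun := (rho F).act e.1
  map_add' := (rho F).add e.1
  map_smul' a v := by
    rw [(rho F).smul]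
    have : pr F e.1 = 1 := e.2
    rw [this]
    rfl
  invFun := (rho F).act e.1⁻¹
  left_inv v := (rho F).inv_act e.1 v
  right_inv v := (rho F).act_inv e.1 v

/-- the homomorphism from the kernel to the linear group -/
def kerHom (F : Tuple K n) : (pr F).ker →* ((Fin n → K) ≃ₗ[K] (Fin n → K)) where
  toFun := kerLin F
  map_one' := LinearEquiv.ext fun _ => rfl
  map_mul' _ _ := LinearEquiv.ext fun _ => rfl

theorem kerHom_apply (F : Tuple K n) (e : (pr F).ker) (v : Fin n → K) :
    kerHom F e v = (rho F).act e.1 v := rfl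

theorem kerHom_injective (F : Tuple K n) : Function.Injective (kerHom F) := by
  rw [injective_iff_map_eq_one]
  intro e he
  apply Subtype.ext
  apply rho_faithful F e.1 e.2
  intro v
  rw [← kerHom_apply, he]
  rfl

theorem ker_finite (n : ℕ) : ∃ J : ℕ, ∀ (K : Type) [Field K] [Algebra ℚ K] [IsAlgClosed K]
    (_ : K →+* ℂ) (d : ℕ), 2 ≤ d → ∀ F : Tuple K n, IsMorphism d F →
    Finite (pr F).ker ∧ ∃ A : Subgroup (pr F).ker, (∀ a ∈ A, ∀ b ∈ A, a * b = b * a) ∧
      A.index ≤ J := by
  obtain ⟨J, hJ⟩ := Pool.Agent.Helper561.FOM.part1 n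
  refine ⟨J, fun K _ _ _ ι d hd F hF => ?_⟩
  obtain ⟨h1, A, h2, h3⟩ := hJ K ι d hd F hF.homogeneous (fun x hx => hF.no_common_zero x
    fun i => congrFun hx i) (kerHom F).range (by
      rintro g ⟨e, rfl⟩ x
      exact rho_comm F e.1 x)
  let eq : (pr F).ker ≃* (kerHom F).range := MonoidHom.ofInjective (kerHom_injective F)
  refine ⟨Finite.of_injective eq eq.injective, A.comap eq.toMonoidHom, ?_, ?_⟩
  · intro a ha b hb
    apply eq.injective
    rw [map_mul, map_mul]
    exact h2 _ ha _ hb
  · rw [Subgroup.index_comap_of_surjective]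
    · exact h3
    · exact eq.surjective

end Pool.Agent.Helper38.Fom
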