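import Pool.Agent.Helper38.Fom.Ker
import Pool.Agent.Helper38.Fom.Field
import Pool.Agent.Helper881.FomPart2

/-!
The uniform bound.
-/

namespace Pool.Agent.Helper38.Fom

open MvPolynomial Pool.Agent.Helper881.FM Module

/-- the fixed field of a subgroup of symmetries -/
def fixF {K : Type} [Field K] [Algebra ℚ K] {n : ℕ} (F : Tuple K n) (G : Subgroup (EG F)) :
    Subfield K where
  carrier := {x | ∀ g ∈ G, pr F g x = x}
  mul_mem' := fun ha hb σ h => by rw [map_mul, ha σ h, hb σ h]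
  one_mem' := fun σ _ => map_one (pr F σ)
  add_mem' := fun ha hb σ h => by rw [map_add, ha σ h, hb σ h]
  zero_mem' := fun σ _ => map_zero (pr F σ)
  neg_mem' := fun ha σ h => by rw [map_neg, ha σ h]
  inv_mem' := fun _ ha σ h => by rw [map_inv₀, ha σ h]

/-- Uniform bound over any algebraically closed algebraic extension of `ℚ`. -/
theorem uniform_bound (n : ℕ) : ∃ D : ℕ, ∀ (K : Type) [Field K] [Algebra ℚ K] [IsAlgClosed K]
    [Algebra.IsAlgebraic ℚ K] (d : ℕ), 2 ≤ d → ∀ F : Tuple K n, IsMorphism d F →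
    ∃ L : Subfield K, IsFieldOfDefinition F L ∧ fieldOfModuli F ≤ L ∧
      Subfield.relrank (fieldOfModuli F) L ≤ (D : Cardinal) := by
  obtain ⟨J, hJ⟩ := ker_finite n
  obtain ⟨D, hD⟩ := Pool.Agent.Helper881.FOM.part2 n J
  refine ⟨D, fun K _ _ _ _ d hd F hF => ?_⟩
  have hch : CharZero K := algebraRat.charZero K
  obtain ⟨hk1, hk2⟩ := hJ K (IsAlgClosed.lift (R := ℚ) (M := ℂ) (S := K)).toRingHom d hd F hF
  obtain ⟨G, hG0, hGD, w, hw⟩ := hD ℚ K (EG F) (pr F) (Fin n → K) (rho F)
    (Module.finrank_fin_fun K) (rho_smooth F) (rho_faithful F) hk1 hk2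
  obtain ⟨M, hM⟩ := diag_normal F G w hw
  have hgal : IsGalois ℚ K :=
    { to_isSeparable := inferInstance
      to_normal := normal_iff.mpr fun x =>
        ⟨Algebra.IsIntegral.isIntegral x, IsAlgClosed.splits _⟩ }
  have hdef : IsFieldOfDefinition F (fixF F G) :=
    ⟨conj F M, ⟨M, 1, one_ne_zero, fun i => by rw [C_1, one_mul]⟩, fun i m g hg => hM g hg i m⟩
  have hle : fieldOfModuli F ≤ fixF F G := fieldOfModuli_le hdef
  refine ⟨fixF F G, hdef, hle, ?_⟩
  let act : EG F →* (K ≃+* K) :=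
    { toFun := fun e => (pr F e).toRingEquiv
      map_one' := rfl
      map_mul' := fun _ _ => rfl }
  have h1 := artin_bound act G hG0 (fieldOfModuli F) (fixF F G) (by
    intro x hx σ hσ
    obtain ⟨e, rfl⟩ := exists_lift hd hF σ hσ
    exact hx e) (fun x hx g hg => hx g hg) hle
  exact h1.trans (by exact_mod_cast hGD)

end Pool.Agent.Helper38.Fom
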