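import Pool.Agent.Helper38.Fom.Grp

/-!
The torus step.
-/

namespace Pool.Agent.Helper38.Fom

open MvPolynomial Pool.Agent.Helper881.FM Module

section Char

variable {K : Type} [Field K] {n : ℕ}

/-- the character of the lattice given by units -/
noncomputable def chi (u : Fin n → Kˣ) : (Fin n → ℤ) →ₗ[ℤ] Additive Kˣ :=
  Fintype.linearCombination ℤ (fun j => Additive.ofMul (u j))

/-- the exponent vector of a coefficient -/
def expo (i : Fin n) (m : Fin n →₀ ℕ) : Fin n → ℤ := fun j => (m j : ℤ) - (Pi.single i 1 : Fin n → ℤ) j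

theorem chi_expo (u : Fin n → Kˣ) (i : Fin n) (m : Fin n →₀ ℕ) :
    (chi u (expo i m)).toMul = (∏ j, u j ^ m j) * (u i)⁻¹ := by
  rw [chi, Fintype.linearCombination_apply, toMul_sum]
  simp only [toMul_zsmul, toMul_ofMul, expo, zpow_sub, zpow_natCast, Finset.prod_mul_distrib,
    Finset.prod_inv_distrib]
  congr 2
  rw [Finset.prod_eq_single i]
  · simp
  · intro j _ hj
    rw [Pi.single_eq_of_ne hj, zpow_zero]
  · simp

theorem chi_of_hom (t : (Fin n → ℤ) →+ Additive Kˣ) (v : Fin n → ℤ) :
    chi (fun j => (t (Pi.single j 1)).toMul) v = t v := by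
  rw [chi, Fintype.linearCombination_apply]
  simp only [ofMul_toMul]
  conv_rhs => rw [pi_eq_sum_univ' v]
  rw [map_sum]
  refine Finset.sum_congr rfl fun j _ => ?_
  rw [map_zsmul]

/-- multiplicative triviality: coefficients transforming by characters can be normalised -/
theorem exists_torus [IsAlgClosed K] (S : Type) (a : S → Kˣ) (x : S → (Fin n → ℤ)) :
    ∃ T : Fin n → Kˣ, ∀ (σ : K ≃+* K) (c : Fin n → Kˣ),
      (∀ s, Units.map (σ : K →* K) (a s) = a s * (chi c (x s)).toMul) →
      ∀ s, σ ((a s * (chi T (x s)).toMul : Kˣ) : K) = ((a s * (chi T (x s)).toMul : Kˣ) : K) := by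
  classical
  let q : (S →₀ ℤ) →ₗ[ℤ] (Fin n → ℤ) := Finsupp.linearCombination ℤ x
  let A : (S →₀ ℤ) →ₗ[ℤ] Additive Kˣ :=
    Finsupp.linearCombination ℤ (fun s => Additive.ofMul (a s))
  have hq : Function.Surjective q.rangeRestrict := LinearMap.surjective_rangeRestrict q
  obtain ⟨r, hr⟩ := Module.projective_lifting_property q.rangeRestrict LinearMap.id hq
  have hdiv : DivisibleBy (Additive Kˣ) ℤ := by
    apply divisibleByOfSMulRightSurj
    intro m hm y
    have hm' : 0 < m.natAbs := Int.natAbs_pos.mpr hm
    obtain ⟨z, hz⟩ := IsAlgClosed.exists_pow_nat_eq ((y.toMul : Kˣ) : K) hm'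
    have hz0 : z ≠ 0 := by
      rintro rfl
      rw [zero_pow hm'.ne'] at hz
      exact (y.toMul).ne_zero hz.symm
    have hz1 : (Units.mk0 z hz0) ^ m.natAbs = y.toMul := by
      apply Units.ext
      simpa using hz
    rcases Int.natAbs_eq m with h | h
    · refine ⟨Additive.ofMul (Units.mk0 z hz0), ?_⟩
      show m • Additive.ofMul (Units.mk0 z hz0) = y
      rw [h, ← ofMul_zpow, zpow_natCast, hz1]
      rfl
    · refine ⟨Additive.ofMul (Units.mk0 z hz0)⁻¹, ?_⟩
      show m • Additive.ofMul (Units.mk0 z hz0)⁻¹ = y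
      rw [h, ← ofMul_zpow, zpow_neg, zpow_natCast, inv_pow, inv_inv, hz1]
      rfl
  have hB : Module.Baer ℤ (Additive Kˣ) := Module.Baer.of_divisible _
  obtain ⟨t, ht⟩ := hB.extension_property_addMonoidHom
    (LinearMap.range q).subtype.toAddMonoidHom (Submodule.subtype_injective _)
    (-(A.comp r).toAddMonoidHom)
  refine ⟨fun j => (t (Pi.single j 1)).toMul, fun σ c hσ s => ?_⟩
  have h3 : q (Finsupp.single s 1) = x s := by simp [q, Finsupp.linearCombination_single]
  obtain ⟨ξ, hξ⟩ : ∃ ξ : LinearMap.range q, ξ = ⟨q (Finsupp.single s 1), Finsupp.single s 1, rfl⟩ :=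
    ⟨_, rfl⟩
  have hξ1 : (ξ : Fin n → ℤ) = x s := by rw [hξ]; exact h3
  obtain ⟨z, hz⟩ : ∃ z : S →₀ ℤ, z = Finsupp.single s 1 - r ξ := ⟨_, rfl⟩
  have hqz : q z = 0 := by
    have h1 := LinearMap.congr_fun hr ξ
    have h2 : q (r ξ) = x s := (congrArg Subtype.val h1).trans hξ1
    rw [hz, map_sub, h2, h3, sub_self]
  have hAz : (A z).toMul = a s * (chi (fun j => (t (Pi.single j 1)).toMul) (x s)).toMul := by
    rw [chi_of_hom]
    have h1 := DFunLike.congr_fun ht ξ
    have h2 : t (x s) = -(A (r ξ)) := by rw [← hξ1]; exact h1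
    rw [h2, hz, map_sub, sub_eq_add_neg, toMul_add]
    congr 1
    simp [A, Finsupp.linearCombination_single]
  have hhom : ∀ y : S →₀ ℤ, Units.map (σ : K →* K) (A y).toMul = (A y).toMul * (chi c (q y)).toMul := by
    intro y
    induction y using Finsupp.induction_linear with
    | zero => simp
    | add f g hf hg =>
      rw [map_add, toMul_add, map_mul, hf, hg, map_add, map_add, toMul_add, mul_mul_mul_comm]
    | single s' k =>
      have h1 : A (Finsupp.single s' k) = k • Additive.ofMul (a s') := by
        simp [A, Finsupp.linearCombination_single]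
      have h2 : q (Finsupp.single s' k) = k • x s' := by
        simp [q, Finsupp.linearCombination_single]
      rw [h1, h2, toMul_zsmul, map_zpow, toMul_ofMul, hσ, map_zsmul, toMul_zsmul, mul_zpow]
  have hfin := hhom z
  rw [hqz, map_zero, toMul_zero, mul_one, hAz] at hfin
  exact congrArg Units.val hfin

end Char

section Conj

variable {K : Type} [Field K] {n : ℕ}

/-- scaling the variables multiplies the coefficients by a character -/
theorem coeff_scale (c : Fin n → K) (p : MvPolynomial (Fin n) K) (m : Fin n →₀ ℕ) :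
    coeff m (bind₁ (fun j => C (c j) * X j) p) = coeff m p * ∏ j, c j ^ m j := by
  classical
  induction p using MvPolynomial.induction_on'' generalizing m with
  | C a =>
    rw [bind₁_C_right, coeff_C]
    split_ifs with h
    · subst h; simp
    · simp
  | monomial_add u a p hu ha hp hm =>
    rw [map_add, coeff_add, coeff_add, hp m, add_mul, hm m]
  | mul_X p j hp =>
    rw [map_mul, bind₁_X_right]
    have h1 : bind₁ (fun j => C (c j) * X j) p * (C (c j) * X j) =
        C (c j) * (bind₁ (fun j => C (c j) * X j) p * X j) := by ring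
    rw [h1, coeff_C_mul, coeff_mul_X', coeff_mul_X']
    split_ifs with h
    · rw [hp (m - Finsupp.single j 1)]
      obtain ⟨m', hm'⟩ : ∃ m' : Fin n →₀ ℕ, m' = m - Finsupp.single j 1 := ⟨_, rfl⟩
      have h2 : m = m' + Finsupp.single j 1 := by
        rw [hm']
        ext l
        by_cases hl : l = j
        · subst hl
          have : m l ≠ 0 := by simpa using h
          simp
          omega
        · simp [Ne.symm hl]
      have h3 : ∏ l, c l ^ m l = (∏ l, c l ^ m' l) * c j := by
        conv_lhs => rw [h2]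
        simp only [Finsupp.add_apply, pow_add, Finset.prod_mul_distrib]
        congr 1
        rw [Finset.prod_eq_single j]
        · simp
        · intro l _ hl
          rw [Finsupp.single_eq_of_ne hl, pow_zero]
        · simp
      rw [← hm']
      rw [h3]
      ring
    · simp

/-- the diagonal matrix with given units -/
noncomputable def diagGL (T : Fin n → Kˣ) : Matrix.GeneralLinearGroup (Fin n) K where
  val := Matrix.diagonal fun i => (T i : K)
  inv := Matrix.diagonal fun i => ((T i)⁻¹ : Kˣ)
  val_inv := by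
    rw [Matrix.diagonal_mul_diagonal]
    simp
  inv_val := by
    rw [Matrix.diagonal_mul_diagonal]
    simp

theorem coeff_conj_diag (F : Tuple K n) (T : Fin n → Kˣ) (i : Fin n) (m : Fin n →₀ ℕ) :
    coeff m (conj F (diagGL T) i) = coeff m (F i) * (chi T (expo i m)).toMul := by
  classical
  rw [chi_expo]
  have h1 : conj F (diagGL T) i = C ((T i)⁻¹ : Kˣ).1 * bind₁ (fun j => C (T j).1 * X j) (F i) := by
    simp only [conj]
    rw [Finset.sum_eq_single i]
    · have h2 : ((diagGL T)⁻¹).1 i i = ((T i)⁻¹ : Kˣ).1 := by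
        show (Matrix.diagonal fun i => (((T i)⁻¹ : Kˣ) : K)) i i = _
        rw [Matrix.diagonal_apply_eq]
      rw [h2]
      congr 1
      simp only [subst]
      congr 2
      funext j
      rw [Finset.sum_eq_single j]
      · show C ((Matrix.diagonal fun i => (T i : K)) j j) * X j = _
        rw [Matrix.diagonal_apply_eq]
      · intro l _ hl
        show C ((Matrix.diagonal fun i => (T i : K)) j l) * X l = _
        rw [Matrix.diagonal_apply_ne _ (Ne.symm hl)]
        simp
      · simp
    · intro j _ hj
      have h2 : ((diagGL T)⁻¹).1 i j = 0 := by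
        show (Matrix.diagonal fun i => (((T i)⁻¹ : Kˣ) : K)) i j = _
        rw [Matrix.diagonal_apply_ne _ (Ne.symm hj)]
      rw [h2]
      simp
    · simp
  rw [h1, coeff_C_mul, coeff_scale]
  push_cast
  ring

theorem conj_mul [Infinite K] (F : Tuple K n) (M N : Matrix.GeneralLinearGroup (Fin n) K) :
    conj (conj F M) N = conj F (M * N) := by
  apply evt_ext
  intro x
  rw [evt_conj, evt_conj, evt_conj, mul_inv_rev]
  simp only [Units.val_mul, Matrix.mulVec_mulVec]

end Conj

end Pool.Agent.Helper38.Fom
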